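import Pool.Agent.H979.BK.Stm

/-! # Project BK: the variance of the counts for a uniformly random balanced colouring -/

set_option autoImplicit false

open Filter Topology Finset Pool.Agent.H979.BK

namespace Pool.Agent.H299

section

variable {d n : ℕ}

/-- composition with a permutation of the balls preserves balanced colourings -/
theorem bal_comp {c : Ball d n → Fin d} (hc : Bal c) (ρ : Equiv.Perm (Ball d n)) :
    Bal (fun b => c (ρ b)) := by
  intro i
  refine Eq.trans (Finset.card_equiv ρ fun b => ?_) (hc i)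
  rw [Finset.mem_filter, Finset.mem_filter]
  simp only [Finset.mem_univ, true_and]

/-- the centred indicator function -/
noncomputable def Y (j : Fin d) (c : Ball d n → Fin d) (b : Ball d n) : ℝ :=
  (if c b = j then 1 else 0) - 1 / (d : ℝ)

/-- the covariances, times the number of the colourings -/
noncomputable def Q (B : Finset (Ball d n → Fin d)) (j : Fin d) (b b' : Ball d n) : ℝ :=
  ∑ c ∈ B, Y j c b * Y j c b'

theorem Q_perm (B : Finset (Ball d n → Fin d)) (hB : ∀ c, c ∈ B ↔ Bal c) (j : Fin d)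
    (ρ : Equiv.Perm (Ball d n)) (b b' : Ball d n) : Q B j (ρ b) (ρ b') = Q B j b b' := by
  unfold Q
  refine Finset.sum_nbij' (fun c b => c (ρ b)) (fun c b => c (ρ.symm b)) ?_ ?_ ?_ ?_ ?_
  · intro c hc
    exact (hB _).2 (bal_comp ((hB c).1 hc) ρ)
  · intro c hc
    exact (hB _).2 (bal_comp ((hB c).1 hc) ρ.symm)
  · intro c _
    funext x
    simp only [Equiv.apply_symm_apply]
  · intro c _
    funext x
    simp only [Equiv.symm_apply_apply]
  · intro c _
    rfl

theorem sum_Y (hd : 1 ≤ d) (j : Fin d) {c : Ball d n → Fin d} (hc : Bal c) :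
    ∑ b, Y j c b = 0 := by
  have hd0 : (d : ℝ) ≠ 0 := by
    have : (0 : ℝ) < d := by exact_mod_cast hd
    exact this.ne'
  unfold Y
  rw [Finset.sum_sub_distrib, Finset.sum_boole, hc j, Finset.sum_const, Finset.card_univ,
    Fintype.card_prod, Fintype.card_fin, Fintype.card_fin, nsmul_eq_mul]
  push_cast
  field_simp
  ring

theorem Y_sq_le (hd : 1 ≤ d) (j : Fin d) (c : Ball d n → Fin d) (b : Ball d n) :
    Y j c b * Y j c b ≤ 1 := by
  have hd0 : (1 : ℝ) ≤ d := by exact_mod_cast hd
  have h1 : 1 / (d : ℝ) ≤ 1 := by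
    rw [div_le_one (by linarith)]
    exact hd0
  have h2 : 0 ≤ 1 / (d : ℝ) := by positivity
  unfold Y
  split_ifs
  · nlinarith
  · nlinarith

theorem Q_self_nonneg (B : Finset (Ball d n → Fin d)) (j : Fin d) (b : Ball d n) :
    0 ≤ Q B j b b := Finset.sum_nonneg fun _ _ => mul_self_nonneg _

theorem Q_nonpos (hd : 1 ≤ d) (B : Finset (Ball d n → Fin d)) (hB : ∀ c, c ∈ B ↔ Bal c)
    (j : Fin d) (b b' : Ball d n) (hbb : b ≠ b') : Q B j b b' ≤ 0 := by
  have h0 : ∑ x, Q B j b x = 0 := by
    unfold Q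
    rw [Finset.sum_comm]
    refine Finset.sum_eq_zero fun c hc => ?_
    rw [← Finset.mul_sum, sum_Y hd j ((hB c).1 hc), mul_zero]
  have h1 : ∀ x, x ≠ b → Q B j b x = Q B j b b' := by
    intro x hx
    have h2 := Q_perm B hB j (Equiv.swap b' x) b b'
    rw [Equiv.swap_apply_left, Equiv.swap_apply_of_ne_of_ne hbb hx.symm] at h2
    exact h2
  by_contra hcon
  have hpos : 0 < Q B j b b' := not_le.1 hcon
  have h2 : 0 < ∑ x, Q B j b x := by
    refine Finset.sum_pos' (fun x _ => ?_) ⟨b', Finset.mem_univ _, hpos⟩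
    by_cases hx : x = b
    · rw [hx]
      exact Q_self_nonneg B j b
    · rw [h1 x hx]
      exact hpos.le
  rw [h0] at h2
  exact lt_irrefl _ h2

theorem cnt_eq (l j : Fin d) (c : Ball d n → Fin d) :
    ((cnt c Prod.fst l j : ℕ) : ℝ) - (n : ℝ) / d =
      ∑ b ∈ univ.filter (fun b : Ball d n => b.1 = l), Y j c b := by
  have hW : (univ.filter (fun b : Ball d n => b.1 = l)).card = n := by
    have h1 : univ.filter (fun b : Ball d n => b.1 = l) =
        ({l} : Finset (Fin d)) ×ˢ (univ : Finset (Fin n)) := by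
      ext b
      simp only [Finset.mem_filter, Finset.mem_univ, true_and, Finset.mem_product,
        Finset.mem_singleton, and_true]
    rw [h1, Finset.card_product, Finset.card_singleton, one_mul, Finset.card_univ,
      Fintype.card_fin]
  unfold Y
  rw [Finset.sum_sub_distrib, Finset.sum_boole, Finset.sum_const, hW, nsmul_eq_mul,
    Finset.filter_filter]
  unfold cnt
  ring

end

theorem bk_statvar : S_STATVAR := by
  classical
  intro d n hd hn l j
  obtain ⟨B, hBd⟩ : ∃ B : Finset (Ball d n → Fin d),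
      B = univ.filter (fun c : Ball d n → Fin d => Bal c) := ⟨_, rfl⟩
  rw [← hBd]
  have hB : ∀ c, c ∈ B ↔ Bal c := by
    intro c
    rw [hBd, Finset.mem_filter]
    exact ⟨fun h => h.2, fun h => ⟨Finset.mem_univ _, h⟩⟩
  obtain ⟨W, hWd⟩ : ∃ W : Finset (Ball d n),
      W = univ.filter (fun b : Ball d n => b.1 = l) := ⟨_, rfl⟩
  have hW : W.card = n := by
    have h1 : W = ({l} : Finset (Fin d)) ×ˢ (univ : Finset (Fin n)) := by
      rw [hWd]
      ext b
      simp only [Finset.mem_filter, Finset.mem_univ, true_and, Finset.mem_product,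
        Finset.mem_singleton, and_true]
    rw [h1, Finset.card_product, Finset.card_singleton, one_mul, Finset.card_univ,
      Fintype.card_fin]
  have h1 : ∑ c ∈ B, (((cnt c Prod.fst l j : ℕ) : ℝ) - (n : ℝ) / d) ^ 2 =
      ∑ b ∈ W, ∑ b' ∈ W, Q B j b b' := by
    have h2 : ∀ c ∈ B, (((cnt c Prod.fst l j : ℕ) : ℝ) - (n : ℝ) / d) ^ 2 =
        ∑ b ∈ W, ∑ b' ∈ W, Y j c b * Y j c b' := by
      intro c _
      rw [cnt_eq l j c, ← hWd, sq, Finset.sum_mul_sum]
    rw [Finset.sum_congr rfl h2, Finset.sum_comm]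
    refine Finset.sum_congr rfl fun b _ => ?_
    rw [Finset.sum_comm]
    rfl
  rw [h1]
  have h3 : ∀ b ∈ W, ∑ b' ∈ W, Q B j b b' ≤ (B.card : ℝ) := by
    intro b hb
    rw [← Finset.add_sum_erase W _ hb]
    have h4 : ∑ b' ∈ W.erase b, Q B j b b' ≤ 0 :=
      Finset.sum_nonpos fun b' hb' => Q_nonpos hd B hB j b b' (Finset.ne_of_mem_erase hb').symm
    have h5 : Q B j b b ≤ (B.card : ℝ) := by
      unfold Q
      refine (Finset.sum_le_sum fun c _ => Y_sq_le hd j c b).trans (le_of_eq ?_)
      rw [Finset.sum_const, nsmul_eq_mul, mul_one]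
    linarith
  refine (Finset.sum_le_sum h3).trans (le_of_eq ?_)
  rw [Finset.sum_const, hW, nsmul_eq_mul]

end Pool.Agent.H299
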